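import Pool.Agent.H173R3.ZT.Ring

/-!
# Products `g V × {γ}` without atypical subvarieties; cosets through points of finite rank groups

`V` is any irreducible closed subvariety of the complex torus and `γ` any point of a torus. For a
positive proportion of the integer vectors `g`, the translate `g V` meets no coset through a point
of the division closure of the group generated by the coordinates of `γ` atypically, and, if these
coordinates are multiplicatively independent, the subvariety `g V × {γ}` of the bigger torus has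
no atypical subvariety.
-/

set_option autoImplicit false

namespace Pool.Agent.Results.MP_dd1803_nt.FiniteRank

open MvPolynomial Filter

/-- The translate of `V` by the vector `g`. -/
def translate {n : ℕ} (g : Fin n → ℤ) (V : Set (Fin n → ℂ)) : Set (Fin n → ℂ) :=
  {y | ∃ x ∈ V, ∀ i, y i = (g i : ℂ) * x i}

/-- The product `W × {γ}`, a subset of the torus of dimension `n + r`. -/
def prodPoint {n r : ℕ} (W : Set (Fin n → ℂ)) (γ : Fin r → ℂ) : Set (Fin n ⊕ Fin r → ℂ) :=
  {y | (fun i => y (Sum.inl i)) ∈ W ∧ ∀ k, y (Sum.inr k) = γ k}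

/-- The coset `{y | y ^ a = η ^ a for all a in M}` of an algebraic subgroup of the torus, of
codimension `rank M`. -/
def coset {ι : Type} [Fintype ι] (M : Submodule ℤ (ι → ℤ)) (η : ι → ℂ) : Set (ι → ℂ) :=
  {y | (∀ i, y i ≠ 0) ∧ ∀ a ∈ M, ∏ i, y i ^ a i = ∏ i, η i ^ a i}

/-- The ideal of the polynomials vanishing on `A`; `A` is irreducible when it is prime. -/
noncomputable def idealOf {ι : Type} (A : Set (ι → ℂ)) : Ideal (MvPolynomial ι ℂ) :=
  ⨅ x ∈ A, RingHom.ker (eval x : MvPolynomial ι ℂ →+* ℂ)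

/-- The dimension of an irreducible set `A`: the transcendence degree of its coordinate ring. -/
noncomputable def dim {ι : Type} (A : Set (ι → ℂ)) : Cardinal :=
  Algebra.trdeg ℂ (MvPolynomial ι ℂ ⧸ idealOf A)

/-- `W` has no atypical subvariety: every irreducible subset `A` of the intersection of `W` with a
torsion coset `T` of codimension `rank M` satisfies `dim A ≤ dim W - rank M`. -/
def NoAtypicalSubvariety {ι : Type} [Fintype ι] (W : Set (ι → ℂ)) : Prop :=
  ∀ (M : Submodule ℤ (ι → ℤ)) (η : ι → ℂ), (∃ m : ℕ, 0 < m ∧ ∀ i, η i ^ m = 1) →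
    ∀ A : Set (ι → ℂ), A ⊆ W → A ⊆ coset M η → (idealOf A).IsPrime →
      dim A + (Module.finrank ℤ M : Cardinal) ≤ dim W

/-- The coordinates of `η` lie in the division closure of the group generated by `γ`: some power
`η_i ^ m` is `∏ k, γ_k ^ (e i k)`. -/
def InDivisionClosure {n r : ℕ} (γ : Fin r → ℂ) (η : Fin n → ℂ) : Prop :=
  ∃ m : ℕ, 0 < m ∧ ∃ e : Fin n → Fin r → ℤ, ∀ i, η i ^ m = ∏ k, γ k ^ e i k

/-- The same inequality for all cosets of algebraic subgroups through points of the division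
closure of the group generated by `γ`. -/
def NoAtypicalModulo {n r : ℕ} (γ : Fin r → ℂ) (W : Set (Fin n → ℂ)) : Prop :=
  ∀ (M : Submodule ℤ (Fin n → ℤ)) (η : Fin n → ℂ), InDivisionClosure γ η →
    ∀ A : Set (Fin n → ℂ), A ⊆ W → A ⊆ coset M η → (idealOf A).IsPrime →
      dim A + (Module.finrank ℤ M : Cardinal) ≤ dim W

theorem mem_idealOf {ι : Type} {A : Set (ι → ℂ)} {f : MvPolynomial ι ℂ} :
    f ∈ idealOf A ↔ ∀ x ∈ A, eval x f = 0 := by
  simp [idealOf, Submodule.mem_iInf, RingHom.mem_ker]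

/-- A surjection between coordinate rings. -/
theorem dim_le_of_map {ι κ : Type} (A : Set (ι → ℂ)) (B : Set (κ → ℂ))
    (φ : MvPolynomial κ ℂ →ₐ[ℂ] MvPolynomial ι ℂ)
    (h1 : ∀ f ∈ idealOf B, φ f ∈ idealOf A) (h2 : ∀ f, ∃ f', φ f' = f) : dim A ≤ dim B := by
  let ψ : (MvPolynomial κ ℂ ⧸ idealOf B) →ₐ[ℂ] (MvPolynomial ι ℂ ⧸ idealOf A) :=
    Ideal.Quotient.liftₐ _ ((Ideal.Quotient.mkₐ ℂ (idealOf A)).comp φ)
      (fun f hf => Ideal.Quotient.eq_zero_iff_mem.2 (h1 f hf))
  have hψ : Function.Surjective ψ := by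
    intro y
    obtain ⟨f, rfl⟩ := Ideal.Quotient.mk_surjective y
    obtain ⟨f', rfl⟩ := h2 f
    exact ⟨Ideal.Quotient.mk _ f', rfl⟩
  exact trdeg_le_of_surjective ψ hψ

/-- the scaling of the variables by `g` -/
noncomputable def scale {n : ℕ} (g : Fin n → ℤ) :
    MvPolynomial (Fin n) ℂ →ₐ[ℂ] MvPolynomial (Fin n) ℂ :=
  aeval fun i => C ((g i : ℤ) : ℂ) * X i

/-- the scaling of the variables by the inverses -/
noncomputable def unscale {n : ℕ} (g : Fin n → ℤ) :
    MvPolynomial (Fin n) ℂ →ₐ[ℂ] MvPolynomial (Fin n) ℂ :=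
  aeval fun i => C (((g i : ℤ) : ℂ)⁻¹) * X i

theorem eval_scale {n : ℕ} (g : Fin n → ℤ) (f : MvPolynomial (Fin n) ℂ) (x : Fin n → ℂ) :
    eval x (scale g f) = eval (fun i => (g i : ℂ) * x i) f := by
  rw [scale, ← aeval_eq_eval, ← aeval_eq_eval]
  have h : (aeval x).comp (aeval fun i => C ((g i : ℤ) : ℂ) * X i :
      MvPolynomial (Fin n) ℂ →ₐ[ℂ] MvPolynomial (Fin n) ℂ) =
      aeval (fun i => (g i : ℂ) * x i) := by
    ext i
    simp
  exact DFunLike.congr_fun h f

theorem scale_unscale {n : ℕ} (g : Fin n → ℤ) (hg : ∀ i, g i ≠ 0) (f : MvPolynomial (Fin n) ℂ) :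
    scale g (unscale g f) = f := by
  have h2 : (scale g).comp (unscale g) = AlgHom.id ℂ _ := by
    ext1 i
    have h3 : ((g i : ℤ) : ℂ) ≠ 0 := by exact_mod_cast hg i
    simp only [AlgHom.comp_apply, unscale, aeval_X, map_mul, scale, AlgHom.id_apply]
    rw [algHom_C, algebraMap_eq, ← mul_assoc, ← C_mul, inv_mul_cancel₀ h3, C_1, one_mul]
  exact DFunLike.congr_fun h2 f

theorem eval_unscale {n : ℕ} (g : Fin n → ℤ) (hg : ∀ i, g i ≠ 0) (f : MvPolynomial (Fin n) ℂ)
    (v x : Fin n → ℂ) (hx : ∀ i, x i = (g i : ℂ) * v i) :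
    eval x (unscale g f) = eval v f := by
  rw [unscale, ← aeval_eq_eval, ← aeval_eq_eval]
  have h3 : (aeval x).comp (aeval (fun i => C ((g i : ℤ) : ℂ)⁻¹ * X i :
      Fin n → MvPolynomial (Fin n) ℂ)) = (aeval v : MvPolynomial (Fin n) ℂ →ₐ[ℂ] ℂ) := by
    ext i
    have h4 : ((g i : ℤ) : ℂ) ≠ 0 := by exact_mod_cast hg i
    simp [hx i, h4]
  exact DFunLike.congr_fun h3 f

theorem dim_translate {n : ℕ} (g : Fin n → ℤ) (hg : ∀ i, g i ≠ 0) (V : Set (Fin n → ℂ)) :
    dim V ≤ dim (translate g V) := by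
  refine dim_le_of_map _ _ (scale g) ?_ fun f => ⟨unscale g f, scale_unscale g hg f⟩
  intro f hf
  rw [mem_idealOf] at hf ⊢
  intro x hx
  rw [eval_scale]
  exact hf _ ⟨x, hx, fun i => rfl⟩

theorem dim_prodPoint {n r : ℕ} (W : Set (Fin n → ℂ)) (γ : Fin r → ℂ) :
    dim W ≤ dim (prodPoint W γ) := by
  refine dim_le_of_map _ _ (aeval (Sum.elim X fun k => C (γ k))) ?_
    fun f => ⟨rename Sum.inl f, ?_⟩
  · intro f hf
    rw [mem_idealOf] at hf ⊢
    intro x hx
    have h1 : (aeval x).comp (aeval (Sum.elim X fun k => C (γ k)) :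
        MvPolynomial (Fin n ⊕ Fin r) ℂ →ₐ[ℂ] MvPolynomial (Fin n) ℂ) =
        (aeval (Sum.elim x γ) : MvPolynomial (Fin n ⊕ Fin r) ℂ →ₐ[ℂ] ℂ) := by
      ext i
      rcases i with i | k <;> simp
    rw [← aeval_eq_eval]
    refine (DFunLike.congr_fun h1 f).trans ?_
    rw [aeval_eq_eval]
    exact hf _ ⟨hx, fun k => rfl⟩
  · rw [aeval_rename]
    have : (Sum.elim X fun k => C (γ k)) ∘ Sum.inl = (X : Fin n → MvPolynomial (Fin n) ℂ) := rfl
    rw [this, aeval_X_left_apply]

/-- a character that is constant on `A`, seen in the coordinate ring -/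
theorem rel_of_points {n : ℕ} {ι : Type} {A : Set (ι → ℂ)} (c : Fin n → ι) (a : Fin n → ℤ) (ε : ℂ)
    (h : ∀ x ∈ A, (∀ i, x (c i) ≠ 0) ∧ ∏ i, x (c i) ^ a i = ε) :
    ∏ i, (Ideal.Quotient.mk (idealOf A) (X (c i)) : MvPolynomial ι ℂ ⧸ idealOf A) ^ (a i).toNat =
      algebraMap ℂ (MvPolynomial ι ℂ ⧸ idealOf A) ε *
        ∏ i, (Ideal.Quotient.mk (idealOf A) (X (c i)) : MvPolynomial ι ℂ ⧸ idealOf A) ^
          (-a i).toNat := by
  have h1 : algebraMap ℂ (MvPolynomial ι ℂ ⧸ idealOf A) ε = Ideal.Quotient.mk _ (C ε) := rfl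
  simp only [h1, ← map_pow, ← map_prod, ← map_mul]
  rw [Ideal.Quotient.eq, mem_idealOf]
  intro x hx
  obtain ⟨hx0, hx1⟩ := h x hx
  have h3 : (∏ i, x (c i) ^ (a i).toNat) = ε * ∏ i, x (c i) ^ (-a i).toNat := by
    rw [← hx1, ← Finset.prod_mul_distrib]
    refine Finset.prod_congr rfl fun i _ => ?_
    rw [← zpow_natCast, ← zpow_natCast, ← zpow_add₀ (hx0 i)]
    congr 1
    omega
  simp only [map_sub, map_mul, map_prod, map_pow, eval_X, eval_C]
  rw [h3, sub_self]

theorem nonempty_of_isPrime {ι : Type} {A : Set (ι → ℂ)} (hA : (idealOf A).IsPrime) :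
    A.Nonempty := by
  rw [Set.nonempty_iff_ne_empty]
  rintro rfl
  apply hA.ne_top
  rw [Ideal.eq_top_iff_one, mem_idealOf]
  intro x hx
  exact absurd hx (Set.notMem_empty x)

/-- the coordinates are not zero in the coordinate ring -/
theorem X_notMem {ι : Type} [Fintype ι] {A : Set (ι → ℂ)} {M : Submodule ℤ (ι → ℤ)}
    {η : ι → ℂ} (hAT : A ⊆ coset M η) (hne : A.Nonempty) (i : ι) :
    (X i : MvPolynomial ι ℂ) ∉ idealOf A := by
  intro h
  rw [mem_idealOf] at h
  obtain ⟨x, hx⟩ := hne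
  have h2 := h x hx
  rw [eval_X] at h2
  exact (hAT hx).1 i h2

/-- The numbers `γ_1, ..., γ_r` are multiplicatively independent. -/
def Independent {r : ℕ} (γ : Fin r → ℂ) : Prop :=
  ∀ b : Fin r → ℤ, ∏ k, γ k ^ b k = 1 → b = 0

/-- Let `V` be an irreducible closed subvariety of the torus `(ℂ^×)^n` and let `γ_1, ..., γ_r` be
nonzero complex numbers. There is a positive proportion of integer vectors `g`, `1 ≤ g_i ≤ H`, for
which `g V` has no atypical intersection with a coset through a point of the division closure of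
the group generated by `γ` and, if `γ_1, ..., γ_r` are multiplicatively independent, the
subvariety `g V × {γ}` of `(ℂ^×)^(n+r)` has no atypical subvariety. -/
theorem result (n : ℕ) (S : Set (MvPolynomial (Fin n) ℂ)) (V : Set (Fin n → ℂ))
    (hV : V = {x : Fin n → ℂ | (∀ i, x i ≠ 0) ∧ ∀ p ∈ S, eval x p = 0})
    (hprime : (idealOf V).IsPrime) (r : ℕ) (γ : Fin r → ℂ) (hγ0 : ∀ k, γ k ≠ 0) :
    ∃ δ : ℝ, 0 < δ ∧ ∀ᶠ H : ℕ in atTop,
      δ * (H : ℝ) ^ n ≤ Nat.card {g : Fin n → ℤ // (∀ j, 1 ≤ g j ∧ g j ≤ H) ∧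
        NoAtypicalModulo γ (translate g V) ∧
        (Independent γ → NoAtypicalSubvariety (prodPoint (translate g V) γ))} := by
  classical
  have hfin : Algebra.trdeg ℂ (MvPolynomial (Fin n) ℂ ⧸ idealOf V) < Cardinal.aleph0 :=
    trdeg_lt_aleph0_of_finiteType
  obtain ⟨d, hd⟩ := Cardinal.lt_aleph0.1 hfin
  set u : Fin r → ℂˣ := fun k => Units.mk0 (γ k) (hγ0 k) with hu
  set G₀ : Finset ℂˣ := Finset.univ.image u with hG₀
  have hclos : ∀ e : Fin r → ℤ, ∃ c ∈ Subgroup.closure (G₀ : Set ℂˣ),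
      (c : ℂ) = ∏ k, γ k ^ e k := by
    intro e
    refine ⟨∏ k, u k ^ e k, Subgroup.prod_mem _ fun k _ => Subgroup.zpow_mem _
      (Subgroup.subset_closure ?_) _, ?_⟩
    · rw [hG₀]
      simp
    · rw [Units.coe_prod]
      refine Finset.prod_congr rfl fun k _ => ?_
      rw [Units.val_zpow_eq_zpow_val]
      rfl
  obtain ⟨M, b, hM, hb, h⟩ := H173R3.ZT.exists_class_ring (idealOf V) hd G₀
  refine H173R3.ZT.pos_proportion M hM b hb _ fun g hg => ?_
  obtain ⟨hg0, hmain⟩ := h g hg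
  constructor
  · -- cosets through points of the division closure
    rintro L η ⟨m, hm, e, hη⟩ A hAV hAT hA
    refine le_trans ?_ (dim_translate g hg0 V)
    have hne := nonempty_of_isPrime hA
    have hdom : IsDomain (MvPolynomial (Fin n) ℂ ⧸ idealOf A) := Ideal.Quotient.isDomain _
    set w : Fin n → MvPolynomial (Fin n) ℂ ⧸ idealOf A :=
      fun j => Ideal.Quotient.mk _ (X j) with hw
    have hgen : Algebra.adjoin ℂ (Set.range w) = ⊤ := by
      rw [eq_top_iff]
      rintro y -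
      obtain ⟨f, rfl⟩ := Ideal.Quotient.mk_surjective y
      rw [Algebra.adjoin_range_eq_range_aeval]
      refine ⟨f, ?_⟩
      have h1 : aeval w = Ideal.Quotient.mkₐ ℂ (idealOf A) := by
        ext i
        simp [hw]
      exact DFunLike.congr_fun h1 f
    rw [← hd] at hmain
    refine hmain (MvPolynomial (Fin n) ℂ ⧸ idealOf A) w (fun j h0 =>
      X_notMem hAT hne j (Ideal.Quotient.eq_zero_iff_mem.1 h0)) hgen ?_ L ?_
    · intro f hf
      rw [mem_idealOf] at hf
      have h1 : unscale g f ∈ idealOf A := by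
        rw [mem_idealOf]
        intro x hx
        obtain ⟨v, hv, hxv⟩ := hAV hx
        exact (eval_unscale g hg0 f v _ hxv).trans (hf v hv)
      rw [← Ideal.Quotient.eq_zero_iff_mem] at h1
      rw [← h1]
      have h6 : (Ideal.Quotient.mkₐ ℂ (idealOf A)).comp (unscale g) =
          aeval (fun j => algebraMap ℂ _ (((g j : ℤ) : ℂ)⁻¹) * w j) := by
        ext i
        simp only [AlgHom.comp_apply, unscale, aeval_X, map_mul, hw, Ideal.Quotient.mkₐ_eq_mk]
        rfl
      exact (DFunLike.congr_fun h6 f).symm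
    · intro a ha
      refine ⟨∏ i, η i ^ a i, ⟨m, hm, ?_⟩, ?_⟩
      · obtain ⟨c, hc, hce⟩ := hclos fun k => ∑ i, e i k * a i
        refine ⟨c, hc, ?_⟩
        rw [hce, ← Finset.prod_pow]
        have h1 : ∀ i, (η i ^ a i) ^ m = ∏ k, γ k ^ (e i k * a i) := by
          intro i
          rw [← zpow_natCast, ← zpow_mul, mul_comm, zpow_mul, zpow_natCast, hη,
            ← Finset.prod_zpow]
          exact Finset.prod_congr rfl fun k _ => (zpow_mul _ _ _).symm
        simp only [h1]
        rw [Finset.prod_comm]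
        refine Finset.prod_congr rfl fun k _ => ?_
        generalize (Finset.univ : Finset (Fin n)) = s
        induction s using Finset.induction_on with
        | empty => simp
        | insert i s hi ih => rw [Finset.prod_insert hi, Finset.sum_insert hi, zpow_add₀ (hγ0 k), ih]
      · refine rel_of_points (A := A) (fun i => i) a _ fun x hx => ?_
        obtain ⟨hx0, hx1⟩ := hAT hx
        exact ⟨hx0, hx1 a ha⟩
  · -- the product with the point
    rintro hγ L η ⟨m, hm, hη⟩ A hAV hAT hA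
    refine le_trans ?_ ((dim_translate g hg0 V).trans (dim_prodPoint _ γ))
    have hne := nonempty_of_isPrime hA
    have hdom : IsDomain (MvPolynomial (Fin n ⊕ Fin r) ℂ ⧸ idealOf A) :=
      Ideal.Quotient.isDomain _
    set w : Fin n → MvPolynomial (Fin n ⊕ Fin r) ℂ ⧸ idealOf A :=
      fun j => Ideal.Quotient.mk _ (X (Sum.inl j)) with hw
    have hinr : ∀ k : Fin r, (Ideal.Quotient.mk (idealOf A) (X (Sum.inr k)) :
        MvPolynomial (Fin n ⊕ Fin r) ℂ ⧸ idealOf A) = algebraMap ℂ _ (γ k) := by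
      intro k
      have h1 : (algebraMap ℂ (MvPolynomial (Fin n ⊕ Fin r) ℂ ⧸ idealOf A) (γ k)) =
          Ideal.Quotient.mk _ (C (γ k)) := rfl
      rw [h1, Ideal.Quotient.eq, mem_idealOf]
      intro x hx
      rw [map_sub, eval_X, eval_C, (hAV hx).2 k, sub_self]
    have hgen : Algebra.adjoin ℂ (Set.range w) = ⊤ := by
      rw [eq_top_iff]
      rintro y -
      obtain ⟨f, rfl⟩ := Ideal.Quotient.mk_surjective y
      rw [Algebra.adjoin_range_eq_range_aeval]
      refine ⟨aeval (Sum.elim X fun k => C (γ k)) f, ?_⟩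
      have h1 : (aeval w).comp (aeval (Sum.elim X fun k => C (γ k)) :
          MvPolynomial (Fin n ⊕ Fin r) ℂ →ₐ[ℂ] MvPolynomial (Fin n) ℂ) =
          Ideal.Quotient.mkₐ ℂ (idealOf A) := by
        ext i
        rcases i with i | k
        · simp [hw]
        · simp only [AlgHom.comp_apply, aeval_X, Sum.elim_inr, Ideal.Quotient.mkₐ_eq_mk]
          rw [hinr, ← algebraMap_eq, AlgHom.commutes]
      exact DFunLike.congr_fun h1 f
    -- the lattice of the relations of the first coordinates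
    set π : (Fin n ⊕ Fin r → ℤ) →ₗ[ℤ] (Fin n → ℤ) :=
      LinearMap.funLeft ℤ ℤ (Sum.inl : Fin n → Fin n ⊕ Fin r) with hπ
    have hπa : ∀ (a : Fin n ⊕ Fin r → ℤ) (i : Fin n), π a i = a (Sum.inl i) := fun a i => rfl
    have hinj : ∀ a ∈ L, π a = 0 → a = 0 := by
      intro a ha h0
      obtain ⟨x, hx⟩ := hne
      have h1 := (hAT hx).2 a ha
      have h2 : (∏ i, η i ^ a i) ^ m = 1 := by
        rw [← Finset.prod_pow]
        refine Finset.prod_eq_one fun i _ => ?_
        rw [← zpow_natCast, ← zpow_mul, mul_comm, zpow_mul, zpow_natCast, hη, one_zpow]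
      have h3 : ∀ i, a (Sum.inl i) = 0 := fun i => congrFun h0 i
      rw [← h1, Fintype.prod_sum_type] at h2
      have h4 : (∏ i : Fin n, x (Sum.inl i) ^ a (Sum.inl i)) = 1 :=
        Finset.prod_eq_one fun i _ => by rw [h3, zpow_zero]
      rw [h4, one_mul] at h2
      have h5 : (∏ k, γ k ^ ((m : ℤ) * a (Sum.inr k))) = 1 := by
        rw [← h2, ← Finset.prod_pow]
        refine Finset.prod_congr rfl fun k _ => ?_
        rw [(hAV hx).2 k, ← zpow_natCast, ← zpow_mul, mul_comm]
      have h6 := hγ _ h5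
      have hm' : (m : ℤ) ≠ 0 := by exact_mod_cast hm.ne'
      funext i
      rcases i with i | k
      · exact h3 i
      · exact (mul_eq_zero.1 (congrFun h6 k)).resolve_left hm'
    have hrank : Module.finrank ℤ (L.map π) = Module.finrank ℤ L := by
      have h1 : Function.Injective (π.domRestrict L) := by
        rw [injective_iff_map_eq_zero]
        rintro ⟨a, ha⟩ h0
        exact Subtype.ext (hinj a ha h0)
      have h2 := LinearMap.finrank_range_of_inj h1
      rw [← h2, LinearMap.range_domRestrict]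
    rw [← hrank]
    rw [← hd] at hmain
    refine hmain (MvPolynomial (Fin n ⊕ Fin r) ℂ ⧸ idealOf A) w (fun j h0 =>
      X_notMem hAT hne (Sum.inl j) (Ideal.Quotient.eq_zero_iff_mem.1 h0)) hgen ?_ (L.map π) ?_
    · intro f hf
      rw [mem_idealOf] at hf
      have h1 : (rename Sum.inl (unscale g f) : MvPolynomial (Fin n ⊕ Fin r) ℂ) ∈ idealOf A := by
        rw [mem_idealOf]
        intro x hx
        obtain ⟨v, hv, hxv⟩ := (hAV hx).1
        rw [eval_rename]
        exact (eval_unscale g hg0 f v _ hxv).trans (hf v hv)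
      rw [← Ideal.Quotient.eq_zero_iff_mem] at h1
      rw [← h1]
      have h6 : ((Ideal.Quotient.mkₐ ℂ (idealOf A)).comp (rename Sum.inl)).comp (unscale g) =
          aeval (fun j => algebraMap ℂ _ (((g j : ℤ) : ℂ)⁻¹) * w j) := by
        ext i
        simp only [AlgHom.comp_apply, unscale, aeval_X, map_mul, hw, rename_C, rename_X,
          Ideal.Quotient.mkₐ_eq_mk]
        rfl
      exact (DFunLike.congr_fun h6 f).symm
    · rintro _ ⟨a, ha, rfl⟩
      have hγe : (∏ k, γ k ^ a (Sum.inr k)) ≠ 0 :=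
        Finset.prod_ne_zero_iff.2 fun k _ => zpow_ne_zero _ (hγ0 k)
      refine ⟨(∏ i, η i ^ a i) * (∏ k, γ k ^ a (Sum.inr k))⁻¹, ⟨m, hm, ?_⟩, ?_⟩
      · obtain ⟨c, hc, hce⟩ := hclos fun k => -((m : ℤ) * a (Sum.inr k))
        refine ⟨c, hc, ?_⟩
        have h2 : (∏ i, η i ^ a i) ^ m = 1 := by
          rw [← Finset.prod_pow]
          refine Finset.prod_eq_one fun i _ => ?_
          rw [← zpow_natCast, ← zpow_mul, mul_comm, zpow_mul, zpow_natCast, hη, one_zpow]
        rw [mul_pow, h2, one_mul, hce, ← Finset.prod_inv_distrib, ← Finset.prod_pow]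
        refine Finset.prod_congr rfl fun k _ => ?_
        rw [inv_pow, ← zpow_natCast, ← zpow_mul, zpow_neg, mul_comm]
      · refine rel_of_points (A := A) (fun i => Sum.inl i) (π a) _ fun x hx => ?_
        obtain ⟨hx0, hx1⟩ := hAT hx
        refine ⟨fun i => hx0 _, ?_⟩
        rw [← hx1 a ha, Fintype.prod_sum_type]
        have h4 : (∏ k : Fin r, x (Sum.inr k) ^ a (Sum.inr k)) = ∏ k, γ k ^ a (Sum.inr k) :=
          Finset.prod_congr rfl fun k _ => by rw [(hAV hx).2 k]
        rw [h4, mul_inv_cancel_right₀ hγe]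
        rfl

end Pool.Agent.Results.MP_dd1803_nt.FiniteRank
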